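import Pool.Agent.K7.H76.SI.Fin

/-!
# MP_196a10_nt: shifted irreducible polynomials in difference sets

A positive answer to Q1, with the smaller constant `1.94` in place of `1.999`.
-/

set_option autoImplicit false

namespace Pool.Agent.Results.MP_196a10_nt.ShiftedIrreducibles

open Polynomial

/-- For all large `n`, every set `A` of at least `(1.94) ^ n` polynomials of degree at most `n` over the field with
two elements contains `a₁, a₂` with `a₁ - a₂ - 1` irreducible. -/
theorem result : ∃ n₀ : ℕ, ∀ n : ℕ, n₀ ≤ n → ∀ A : Finset (ZMod 2)[X], (∀ a ∈ A, a.natDegree ≤ n) →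
    (1.94 : ℝ) ^ n ≤ (A.card : ℝ) → ∃ a₁ ∈ A, ∃ a₂ ∈ A, Irreducible (a₁ - a₂ - 1) :=
  Pool.Agent.K7.H76.SI.strong

end Pool.Agent.Results.MP_196a10_nt.ShiftedIrreducibles
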